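import Pool.Agent.BER.Stmts

/-!
# Squad BER (MP_be01ff_an), row FRG: the theorem for symmetric domains
-/

set_option autoImplicit false

namespace Pool.Agent.BER.H17

open Set Filter Topology MeasureTheory
open scoped InnerProductSpace ENNReal
open Pool.Agent.BE01 Pool.Agent.BEL Pool.Agent.BEF Pool.Agent.BEN Pool.Agent.BEH Pool.Agent.BEG

/-- FRG from `KsyStmt` (of BEG) and `FrkStmt`. -/
theorem frg (ksy : Pool.Agent.BEG.KsyStmt) (frk : FrkStmt) : FrgStmt := by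
  intro d Ω G p a l φ hd hΩ hG hp ha hφ hφ0 heig h3 hgap
  obtain ⟨K, hK, hKi⟩ := ksy d Ω G (by omega) hΩ hG
  refine frk d Ω K p l φ hd hΩ hK hp ((hKi φ).2 hφ) hφ0 heig ?_ ?_ a ha
  · intro n hn hn3 hnp u hu hue
    exact h3 n hn hn3 hnp u ((hKi u).1 hu) hue
  · intro J
    obtain ⟨M, hJM, hM⟩ := hgap J
    refine ⟨M, hJM, fun n hn hMn hnM u hu hue => ?_⟩
    exact hM n hn hMn hnM u ((hKi u).1 hu) hue

end Pool.Agent.BER.H17
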