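import Pool.Agent.BER.Stmts

/-!
# Squad BER (MP_be01ff_an), row SLV: the linear equation for trigonometric polynomials
-/

set_option autoImplicit false

namespace Pool.Agent.BER.H17

open Set Filter Topology MeasureTheory
open scoped InnerProductSpace ENNReal
open Pool.Agent.BE01 Pool.Agent.BEL Pool.Agent.BEF Pool.Agent.BEN Pool.Agent.BEH Pool.Agent.BEG

/-! ## The orthogonality relations -/

theorem slv_icos (k : ℤ) (hk : k ≠ 0) :
    ∫ ψ in (0 : ℝ)..(2 * Real.pi), Real.cos (k * ψ) = 0 := by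
  have hk' : (k : ℝ) ≠ 0 := by exact_mod_cast hk
  rw [intervalIntegral.integral_comp_mul_left (fun x => Real.cos x) hk', integral_cos]
  have h1 : Real.sin ((k : ℝ) * (2 * Real.pi)) = 0 := by
    have h2 : (k : ℝ) * (2 * Real.pi) = ((2 * k : ℤ) : ℝ) * Real.pi := by push_cast; ring
    rw [h2]
    exact Real.sin_int_mul_pi _
  rw [h1, mul_zero, Real.sin_zero, sub_zero, smul_zero]

theorem slv_isin (k : ℤ) :
    ∫ ψ in (0 : ℝ)..(2 * Real.pi), Real.sin (k * ψ) = 0 := by
  by_cases hk : k = 0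
  · subst hk
    simp
  have hk' : (k : ℝ) ≠ 0 := by exact_mod_cast hk
  rw [intervalIntegral.integral_comp_mul_left (fun x => Real.sin x) hk', integral_sin]
  have h1 : Real.cos ((k : ℝ) * (2 * Real.pi)) = 1 := Real.cos_int_mul_two_pi k
  rw [h1, mul_zero, Real.cos_zero, sub_self, smul_zero]

theorem slv_ccos (k : ℤ) : IntervalIntegrable (fun ψ : ℝ => Real.cos (k * ψ)) volume 0
    (2 * Real.pi) :=
  (by fun_prop : Continuous fun ψ : ℝ => Real.cos (k * ψ)).intervalIntegrable _ _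

theorem slv_csin (k : ℤ) : IntervalIntegrable (fun ψ : ℝ => Real.sin (k * ψ)) volume 0
    (2 * Real.pi) :=
  (by fun_prop : Continuous fun ψ : ℝ => Real.sin (k * ψ)).intervalIntegrable _ _

theorem slv_cc (n j : ℕ) (hn : 1 ≤ n) :
    ∫ ψ in (0 : ℝ)..(2 * Real.pi), Real.cos (n * ψ) * Real.cos (j * ψ) =
      if n = j then Real.pi else 0 := by
  have h1 : ∀ ψ : ℝ, Real.cos (n * ψ) * Real.cos (j * ψ) =
      (1 / 2) * Real.cos (((n + j : ℤ) : ℝ) * ψ) + (1 / 2) * Real.cos (((n - j : ℤ) : ℝ) * ψ) := by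
    intro ψ
    have e1 : (((n + j : ℤ) : ℝ)) * ψ = n * ψ + j * ψ := by push_cast; ring
    have e2 : (((n - j : ℤ) : ℝ)) * ψ = n * ψ - j * ψ := by push_cast; ring
    rw [e1, e2, Real.cos_add, Real.cos_sub]
    ring
  rw [intervalIntegral.integral_congr (g := fun ψ =>
      (1 / 2) * Real.cos (((n + j : ℤ) : ℝ) * ψ) + (1 / 2) * Real.cos (((n - j : ℤ) : ℝ) * ψ))
      (fun ψ _ => h1 ψ),
    intervalIntegral.integral_add ((slv_ccos _).const_mul _) ((slv_ccos _).const_mul _),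
    intervalIntegral.integral_const_mul, intervalIntegral.integral_const_mul,
    slv_icos _ (by omega), mul_zero, zero_add]
  by_cases hnj : n = j
  · rw [if_pos hnj]
    subst hnj
    simp
  · rw [if_neg hnj, slv_icos _ (by omega), mul_zero]

theorem slv_ss (n j : ℕ) (hn : 1 ≤ n) :
    ∫ ψ in (0 : ℝ)..(2 * Real.pi), Real.sin (n * ψ) * Real.sin (j * ψ) =
      if n = j then Real.pi else 0 := by
  have h1 : ∀ ψ : ℝ, Real.sin (n * ψ) * Real.sin (j * ψ) =
      (1 / 2) * Real.cos (((n - j : ℤ) : ℝ) * ψ) - (1 / 2) * Real.cos (((n + j : ℤ) : ℝ) * ψ) := by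
    intro ψ
    have e1 : (((n + j : ℤ) : ℝ)) * ψ = n * ψ + j * ψ := by push_cast; ring
    have e2 : (((n - j : ℤ) : ℝ)) * ψ = n * ψ - j * ψ := by push_cast; ring
    rw [e1, e2, Real.cos_add, Real.cos_sub]
    ring
  rw [intervalIntegral.integral_congr (g := fun ψ =>
      (1 / 2) * Real.cos (((n - j : ℤ) : ℝ) * ψ) - (1 / 2) * Real.cos (((n + j : ℤ) : ℝ) * ψ))
      (fun ψ _ => h1 ψ),
    intervalIntegral.integral_sub ((slv_ccos _).const_mul _) ((slv_ccos _).const_mul _),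
    intervalIntegral.integral_const_mul, intervalIntegral.integral_const_mul,
    slv_icos (n + j) (by omega), mul_zero, sub_zero]
  by_cases hnj : n = j
  · rw [if_pos hnj]
    subst hnj
    simp
  · rw [if_neg hnj, slv_icos _ (by omega), mul_zero]

theorem slv_cs (n j : ℕ) :
    ∫ ψ in (0 : ℝ)..(2 * Real.pi), Real.cos (n * ψ) * Real.sin (j * ψ) = 0 := by
  have h1 : ∀ ψ : ℝ, Real.cos (n * ψ) * Real.sin (j * ψ) =
      (1 / 2) * Real.sin (((n + j : ℤ) : ℝ) * ψ) + (1 / 2) * Real.sin (((j - n : ℤ) : ℝ) * ψ) := by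
    intro ψ
    have e1 : (((n + j : ℤ) : ℝ)) * ψ = n * ψ + j * ψ := by push_cast; ring
    have e2 : (((j - n : ℤ) : ℝ)) * ψ = j * ψ - n * ψ := by push_cast; ring
    rw [e1, e2, Real.sin_add, Real.sin_sub]
    ring
  rw [intervalIntegral.integral_congr (g := fun ψ =>
      (1 / 2) * Real.sin (((n + j : ℤ) : ℝ) * ψ) + (1 / 2) * Real.sin (((j - n : ℤ) : ℝ) * ψ))
      (fun ψ _ => h1 ψ),
    intervalIntegral.integral_add ((slv_csin _).const_mul _) ((slv_csin _).const_mul _),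
    intervalIntegral.integral_const_mul, intervalIntegral.integral_const_mul,
    slv_isin, slv_isin, mul_zero, add_zero]

/-- The orthogonality relations. -/
theorem slv_tg (n j : ℕ) (hn : 1 ≤ n) (s s' : Bool) :
    ∫ ψ in (0 : ℝ)..(2 * Real.pi), tg s n ψ * tg s' j ψ =
      if s = s' ∧ n = j then Real.pi else 0 := by
  cases s <;> cases s'
  · have h := slv_cc n j hn
    simpa [tg] using h
  · have h := slv_cs n j
    simpa [tg] using h
  · have h := slv_cs j n
    rw [intervalIntegral.integral_congr (g := fun ψ => Real.sin (n * ψ) * Real.cos (j * ψ))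
      (fun ψ _ => mul_comm _ _)] at h
    simpa [tg] using h
  · have h := slv_ss n j hn
    simpa [tg] using h

theorem slv_ctg (s : Bool) (n : ℕ) : Continuous (tg s n) := by
  cases s
  · unfold tg
    simp only [cond_false]
    fun_prop
  · unfold tg
    simp only [cond_true]
    fun_prop

/-! ## Trigonometric polynomials -/

/-- The sum `Σ L^b (cos(jψ) A b j + sin(jψ) C b j)`. -/
noncomputable def Tm {X : Type} [NormedAddCommGroup X] [NormedSpace ℝ X] (B J : ℕ) (A C : ℕ → ℕ → X)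
    (ψ L : ℝ) : X :=
  ∑ b ∈ Finset.range B, ∑ j ∈ Finset.range (J + 1),
    L ^ b • (Real.cos (j * ψ) • A b j + Real.sin (j * ψ) • C b j)

theorem Tm_d1 {X : Type} [NormedAddCommGroup X] [NormedSpace ℝ X] (B J : ℕ) (A C : ℕ → ℕ → X) :
    d1 (Tm B J A C) = Tm B J (fun b j => (j : ℝ) • C b j) (fun b j => (-(j : ℝ)) • A b j) := by
  funext ψ L
  unfold d1
  apply HasDerivAt.deriv
  unfold Tm
  refine HasDerivAt.fun_sum fun b _ => HasDerivAt.fun_sum fun j _ => ?_
  have h0 : HasDerivAt (fun r : ℝ => (j : ℝ) * r) (j : ℝ) ψ := by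
    simpa using (hasDerivAt_id ψ).const_mul (j : ℝ)
  have h1 : HasDerivAt (fun r : ℝ => Real.cos (j * r)) (-Real.sin (j * ψ) * j) ψ :=
    h0.cos
  have h2 : HasDerivAt (fun r : ℝ => Real.sin (j * r)) (Real.cos (j * ψ) * j) ψ :=
    h0.sin
  have h3 := ((h1.smul_const (A b j)).add (h2.smul_const (C b j))).const_smul (L ^ b)
  have h4 : L ^ b • (Real.cos (j * ψ) • (j : ℝ) • C b j + Real.sin (j * ψ) • (-(j : ℝ)) • A b j) =
      L ^ b • ((-Real.sin (j * ψ) * j) • A b j + (Real.cos (j * ψ) * j) • C b j) := by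
    congr 1
    rw [smul_smul, smul_smul, add_comm]
    congr 2
    ring
  rw [h4]
  exact h3

theorem Tm_mem {X : Type} [NormedAddCommGroup X] [NormedSpace ℝ X] (B J : ℕ) (A C : ℕ → ℕ → X)
    (hA : ∀ b j, ¬ (Odd j ∧ j ≤ J) → A b j = 0) (hC : ∀ b j, ¬ (Odd j ∧ j ≤ J) → C b j = 0) :
    Tm B J A C ∈ TL X J := by
  have h0 : Tm B J A C = ∑ b ∈ Finset.range B, ∑ j ∈ Finset.range (J + 1),
      ((fun ψ L => (L ^ b * tg false j ψ) • A b j) +
        (fun ψ L => (L ^ b * tg true j ψ) • C b j) : ℝ → ℝ → X) := by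
    funext ψ L
    simp only [Tm, Finset.sum_apply, Pi.add_apply, tg, cond_false, cond_true, smul_add, smul_smul]
  rw [h0]
  refine Submodule.sum_mem _ fun b _ => Submodule.sum_mem _ fun j _ => ?_
  by_cases hj : Odd j ∧ j ≤ J
  · exact Submodule.add_mem _ (Submodule.subset_span ⟨b, j, false, A b j, hj.1, hj.2, rfl⟩)
      (Submodule.subset_span ⟨b, j, true, C b j, hj.1, hj.2, rfl⟩)
  · have h1 : ((fun ψ L => (L ^ b * tg false j ψ) • A b j) +
        (fun ψ L => (L ^ b * tg true j ψ) • C b j) : ℝ → ℝ → X) = 0 := by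
      funext ψ L
      simp [hA b j hj, hC b j hj]
    rw [h1]
    exact Submodule.zero_mem _

/-- A polynomial which vanishes identically. -/
theorem slv_poly (B : ℕ) (c : ℕ → ℝ) (h : ∀ L : ℝ, ∑ b ∈ Finset.range B, L ^ b * c b = 0) :
    ∀ b < B, c b = 0 := by
  intro b hb
  have h1 : (∑ b ∈ Finset.range B, Polynomial.monomial b (c b) : Polynomial ℝ) = 0 := by
    apply Polynomial.funext
    intro L
    rw [Polynomial.eval_finset_sum, Polynomial.eval_zero, ← h L]
    refine Finset.sum_congr rfl fun i _ => ?_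
    rw [Polynomial.eval_monomial, mul_comm]
  have h2 := congrArg (fun P => Polynomial.coeff P b) h1
  simp only [Polynomial.finset_sum_coeff, Polynomial.coeff_monomial, Polynomial.coeff_zero] at h2
  rw [Finset.sum_ite_eq' (Finset.range B) b c] at h2
  simpa [hb] using h2

/-- The integral of a trigonometric polynomial against `tg s n`. -/
theorem slv_int {X H : Type} [NormedAddCommGroup X] [NormedSpace ℝ X]
    [NormedAddCommGroup H] [InnerProductSpace ℝ H] (e : X →L[ℝ] H) (B J : ℕ) (A C : ℕ → ℕ → X)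
    (v : H) (n : ℕ) (hn : 1 ≤ n) (hnJ : n ≤ J) (s : Bool) (L : ℝ) :
    ∫ ψ in (0 : ℝ)..(2 * Real.pi), tg s n ψ * ⟪e (Tm B J A C ψ L), v⟫_ℝ =
      ∑ b ∈ Finset.range B, L ^ b * (Real.pi * (bif s then ⟪e (C b n), v⟫_ℝ else
        ⟪e (A b n), v⟫_ℝ)) := by
  have h1 : ∀ ψ : ℝ, tg s n ψ * ⟪e (Tm B J A C ψ L), v⟫_ℝ =
      ∑ b ∈ Finset.range B, ∑ j ∈ Finset.range (J + 1),
        ((L ^ b * ⟪e (A b j), v⟫_ℝ) * (tg s n ψ * tg false j ψ) +
          (L ^ b * ⟪e (C b j), v⟫_ℝ) * (tg s n ψ * tg true j ψ)) := by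
    intro ψ
    unfold Tm
    rw [map_sum, sum_inner, Finset.mul_sum]
    refine Finset.sum_congr rfl fun b _ => ?_
    rw [map_sum, sum_inner, Finset.mul_sum]
    refine Finset.sum_congr rfl fun j _ => ?_
    rw [map_smul, map_add, map_smul, map_smul, inner_smul_left, inner_add_left, inner_smul_left,
      inner_smul_left]
    simp only [tg, cond_false, cond_true, RCLike.conj_to_real]
    ring
  have hI : ∀ (c : ℝ) (s' : Bool) (j : ℕ), IntervalIntegrable
      (fun ψ : ℝ => c * (tg s n ψ * tg s' j ψ)) volume 0 (2 * Real.pi) := fun c s' j =>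
    (continuous_const.mul ((slv_ctg s n).mul (slv_ctg s' j))).intervalIntegrable _ _
  rw [intervalIntegral.integral_congr (fun ψ _ => h1 ψ),
    intervalIntegral.integral_finset_sum fun b _ => ?_]
  · refine Finset.sum_congr rfl fun b _ => ?_
    rw [intervalIntegral.integral_finset_sum fun j _ => (hI _ _ _).add (hI _ _ _)]
    have h2 : ∀ j ∈ Finset.range (J + 1), (∫ ψ in (0 : ℝ)..(2 * Real.pi),
        ((L ^ b * ⟪e (A b j), v⟫_ℝ) * (tg s n ψ * tg false j ψ) +
          (L ^ b * ⟪e (C b j), v⟫_ℝ) * (tg s n ψ * tg true j ψ))) =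
        if j = n then L ^ b * (Real.pi * (bif s then ⟪e (C b n), v⟫_ℝ else ⟪e (A b n), v⟫_ℝ))
        else 0 := by
      intro j _
      rw [intervalIntegral.integral_add (hI _ _ _) (hI _ _ _),
        intervalIntegral.integral_const_mul, intervalIntegral.integral_const_mul,
        slv_tg n j hn, slv_tg n j hn]
      by_cases hj : n = j
      · subst hj
        cases s
        · simp
          ring
        · simp
          ring
      · have hj' : ¬ (j = n) := fun h => hj h.symm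
        simp [hj, hj']
    rw [Finset.sum_congr rfl h2, Finset.sum_ite_eq' (Finset.range (J + 1)) n]
    simp [Nat.lt_succ_of_le hnJ]
  · exact (continuous_finset_sum _ fun j _ =>
      ((continuous_const.mul ((slv_ctg s n).mul (slv_ctg false j))).add
        (continuous_const.mul ((slv_ctg s n).mul (slv_ctg true j))))).intervalIntegrable _ _

/-- SLV from `FrpStmt`. -/
theorem slv (frp : FrpStmt) : SlvStmt := by
  intro X H _ _ _ _ W ω m φ J hfam F hF hint
  obtain ⟨B, x, y, hxy, hFe⟩ := frp X J F hF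
  have hFT : F = Tm B J x y := by
    funext ψ L
    exact hFe ψ L
  have hort : ∀ n, 1 ≤ n → n ≤ J → ∀ (i : Fin (m n)) (s : Bool), ∀ b < B,
      (bif s then ⟪W.e (y b n), W.e (φ n i)⟫_ℝ else ⟪W.e (x b n), W.e (φ n i)⟫_ℝ) = 0 := by
    intro n hn hnJ i s b hb
    have h1 := slv_poly B (fun b => Real.pi * (bif s then ⟪W.e (y b n), W.e (φ n i)⟫_ℝ else
        ⟪W.e (x b n), W.e (φ n i)⟫_ℝ)) (fun L => by
      rw [← slv_int W.e B J x y (W.e (φ n i)) n hn hnJ s L, ← hFT]
      exact hint n hnJ i s L) b hb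
    exact (mul_eq_zero.1 h1).resolve_left Real.pi_ne_zero
  have hex : ∀ (z : ℕ → ℕ → X), (∀ b j, ¬ (Odd j ∧ j ≤ J) → z b j = 0) →
      (∀ n, 1 ≤ n → n ≤ J → ∀ (i : Fin (m n)), ∀ b < B,
        ⟪W.e (z b n), W.e (φ n i)⟫_ℝ = 0) → ∃ q : ℕ → ℕ → X,
      (∀ b j, ¬ (Odd j ∧ j ≤ J) → q b j = 0) ∧
      (∀ b < B, ∀ j, q b j - ((j : ℝ) ^ 2 * ω ^ 2) • W.SX (q b j) = - z b j) := by
    intro z hz0 hz
    have h1 : ∀ b j, ∃ q : X, (¬ (Odd j ∧ j ≤ J) → q = 0) ∧
        (b < B → q - ((j : ℝ) ^ 2 * ω ^ 2) • W.SX q = - z b j) := by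
      intro b j
      by_cases hj : Odd j ∧ j ≤ J
      · by_cases hb : b < B
        · obtain ⟨q, hq⟩ := hfam.sv j hj.1 (- z b j) (fun i => by
            rw [map_neg, inner_neg_left, hz j hj.1.pos hj.2 i b hb, neg_zero])
          exact ⟨q, fun h => absurd hj h, fun _ => hq⟩
        · exact ⟨0, fun _ => rfl, fun h => absurd h hb⟩
      · refine ⟨0, fun _ => rfl, fun _ => ?_⟩
        rw [hz0 b j hj, map_zero, smul_zero, sub_zero, neg_zero]
    choose q hq1 hq2 using h1
    exact ⟨q, hq1, fun b hb j => hq2 b j hb⟩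
  obtain ⟨q1, hq10, hq1⟩ := hex x (fun b j h => (hxy b j h).1)
    (fun n hn hnJ i b hb => hort n hn hnJ i false b hb)
  obtain ⟨q2, hq20, hq2⟩ := hex y (fun b j h => (hxy b j h).2)
    (fun n hn hnJ i b hb => hort n hn hnJ i true b hb)
  refine ⟨Tm B J q1 q2, Tm_mem B J q1 q2 hq10 hq20, ?_⟩
  intro ψ L
  rw [Tm_d1, Tm_d1, hFT]
  unfold Tm
  rw [map_sum, Finset.smul_sum, ← Finset.sum_add_distrib, ← Finset.sum_neg_distrib]
  refine Finset.sum_congr rfl fun b hb => ?_
  have hb' : b < B := Finset.mem_range.1 hb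
  rw [map_sum, Finset.smul_sum, ← Finset.sum_add_distrib, ← Finset.sum_neg_distrib]
  refine Finset.sum_congr rfl fun j _ => ?_
  have e1 : x b j = - (q1 b j - ((j : ℝ) ^ 2 * ω ^ 2) • W.SX (q1 b j)) := by
    rw [hq1 b hb' j, neg_neg]
  have e2 : y b j = - (q2 b j - ((j : ℝ) ^ 2 * ω ^ 2) • W.SX (q2 b j)) := by
    rw [hq2 b hb' j, neg_neg]
  rw [e1, e2]
  simp only [map_smul, map_add, map_neg]
  module

end Pool.Agent.BER.H17
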